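import Pool.Agent.helper24.TG.S4

set_option linter.all false
set_option autoImplicit false

/-!
# Module QM (MP_ce98d8_co): medium sets
-/

namespace Pool.Agent.helper24.TG

open Finset Classical
open Pool.Agent.helper11.Tight (nb eo mem_nb)

theorem QM_exp8 : Real.exp 8 ≤ 6561 := by
  have h1 : Real.exp 1 ≤ 3 := by
    have := Real.exp_one_lt_d9
    linarith
  have h2 : Real.exp 8 = Real.exp 1 ^ 8 := by
    rw [← Real.exp_nat_mul]
    norm_num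
  rw [h2]
  calc Real.exp 1 ^ 8 ≤ 3 ^ 8 := pow_le_pow_left₀ (Real.exp_pos 1).le h1 8
    _ = 6561 := by norm_num

theorem QM_two_pow (n : ℕ) : (2 : ℝ) ^ n ≤ Real.exp n := by
  have h1 : (2 : ℝ) ≤ Real.exp 1 := by
    have := Real.add_one_le_exp (1 : ℝ)
    linarith
  calc (2 : ℝ) ^ n ≤ Real.exp 1 ^ n := pow_le_pow_left₀ (by norm_num) h1 n
    _ = Real.exp n := by rw [← Real.exp_nat_mul, mul_one]

/-- the common end of QS, QM, QL -/
theorem QM_end (X Ps U N k M : ℕ) (Z : ℝ) (hN : 1 ≤ N)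
    (h1 : (X : ℝ) * (N : ℝ) ^ k ≤ Ps * Real.exp 8 * (U + (N : ℝ) ^ k * Z))
    (h2 : (U : ℝ) * (M : ℝ) ^ k * 13122 ≤ (N : ℝ) ^ k)
    (h3 : Z * (M : ℝ) ^ k * Real.exp 8 * 2 ≤ 1) : X * M ^ k ≤ Ps := by
  have hNk : (0 : ℝ) < (N : ℝ) ^ k := by
    have : (0 : ℝ) < N := by exact_mod_cast hN
    positivity
  have hM : (0 : ℝ) ≤ (M : ℝ) ^ k := by positivity
  have hPs : (0 : ℝ) ≤ Ps := Nat.cast_nonneg _
  have h2' : Real.exp 8 * (U : ℝ) * (M : ℝ) ^ k * 2 ≤ (N : ℝ) ^ k := by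
    have h0 : (0 : ℝ) ≤ (U : ℝ) * (M : ℝ) ^ k := by positivity
    nlinarith [QM_exp8, mul_le_mul_of_nonneg_left QM_exp8 h0]
  have h3' : Real.exp 8 * ((N : ℝ) ^ k * Z) * (M : ℝ) ^ k * 2 ≤ (N : ℝ) ^ k := by
    have := mul_le_mul_of_nonneg_left h3 hNk.le
    nlinarith
  have h4 : (X : ℝ) * (M : ℝ) ^ k * (N : ℝ) ^ k ≤ Ps * (N : ℝ) ^ k := by
    calc (X : ℝ) * (M : ℝ) ^ k * (N : ℝ) ^ k = ((X : ℝ) * (N : ℝ) ^ k) * (M : ℝ) ^ k := by ring
      _ ≤ (Ps * Real.exp 8 * (U + (N : ℝ) ^ k * Z)) * (M : ℝ) ^ k :=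
        mul_le_mul_of_nonneg_right h1 hM
      _ = Ps * (Real.exp 8 * (U : ℝ) * (M : ℝ) ^ k + Real.exp 8 * ((N : ℝ) ^ k * Z) *
          (M : ℝ) ^ k) := by ring
      _ ≤ Ps * (N : ℝ) ^ k := by
        apply mul_le_mul_of_nonneg_left _ hPs
        linarith
  have h5 : (X : ℝ) * (M : ℝ) ^ k ≤ Ps := le_of_mul_le_mul_right h4 hNk
  exact_mod_cast h5

theorem QM_U (U N k h c B : ℕ) (hk : 1 ≤ k) (hc : 10 ^ 6 ≤ c)
    (hA : U ^ 4 * N ^ k ≤ 256 ^ k * N ^ (4 * k) * (2 * h) ^ k) (hN : 1 ≤ N)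
    (hh : h * (c ^ 65 * B ^ 16) ≤ N) :
    U * (c ^ 15 * B ^ 4) ^ k * 13122 ≤ N ^ k := by
  have h0 : 512 * h * (c ^ 60 * B ^ 16) * 13122 ^ 4 ≤ N := by
    have h1 : 512 * 13122 ^ 4 ≤ c ^ 5 := by
      calc 512 * 13122 ^ 4 ≤ (10 ^ 6) ^ 5 := by norm_num
        _ ≤ c ^ 5 := Nat.pow_le_pow_left hc 5
    calc 512 * h * (c ^ 60 * B ^ 16) * 13122 ^ 4
        = (512 * 13122 ^ 4) * (h * (c ^ 60 * B ^ 16)) := by ring
      _ ≤ c ^ 5 * (h * (c ^ 60 * B ^ 16)) := Nat.mul_le_mul_right _ h1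
      _ = h * (c ^ 65 * B ^ 16) := by ring
      _ ≤ N := hh
  have h2 : (512 * h * (c ^ 60 * B ^ 16)) ^ k * 13122 ^ 4 ≤ N ^ k := by
    calc (512 * h * (c ^ 60 * B ^ 16)) ^ k * 13122 ^ 4
        ≤ (512 * h * (c ^ 60 * B ^ 16)) ^ k * (13122 ^ 4) ^ k := by
          apply Nat.mul_le_mul_left
          exact Nat.le_self_pow (by omega) _
      _ = (512 * h * (c ^ 60 * B ^ 16) * 13122 ^ 4) ^ k := by rw [← mul_pow]
      _ ≤ N ^ k := Nat.pow_le_pow_left h0 k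
  have h3 : (U * (c ^ 15 * B ^ 4) ^ k * 13122) ^ 4 * N ^ k ≤ (N ^ k) ^ 4 * N ^ k := by
    calc (U * (c ^ 15 * B ^ 4) ^ k * 13122) ^ 4 * N ^ k
        = (U ^ 4 * N ^ k) * ((c ^ 60 * B ^ 16) ^ k * 13122 ^ 4) := by
          have : ((c ^ 15 * B ^ 4) ^ k) ^ 4 = (c ^ 60 * B ^ 16) ^ k := by
            rw [← pow_mul, mul_comm k 4, pow_mul]
            congr 1
            ring
          rw [mul_pow, mul_pow, this]
          ring
      _ ≤ (256 ^ k * N ^ (4 * k) * (2 * h) ^ k) * ((c ^ 60 * B ^ 16) ^ k * 13122 ^ 4) :=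
        Nat.mul_le_mul_right _ hA
      _ = N ^ (4 * k) * ((512 * h * (c ^ 60 * B ^ 16)) ^ k * 13122 ^ 4) := by
        have : (512 * h * (c ^ 60 * B ^ 16)) ^ k = 256 ^ k * (2 * h) ^ k * (c ^ 60 * B ^ 16) ^ k := by
          rw [← mul_pow, ← mul_pow]
          congr 1
          ring
        rw [this]
        ring
      _ ≤ N ^ (4 * k) * N ^ k := Nat.mul_le_mul_left _ h2
      _ = (N ^ k) ^ 4 * N ^ k := by
        rw [← pow_mul, mul_comm k 4]
  have h4 : (U * (c ^ 15 * B ^ 4) ^ k * 13122) ^ 4 ≤ (N ^ k) ^ 4 :=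
    Nat.le_of_mul_le_mul_right h3 (by positivity)
  exact (Nat.pow_le_pow_iff_left (by norm_num)).1 h4

/-- sizes -/
theorem QM_sizes (p : Par) : p.q + 1 ≤ 2 ^ p.Lam ∧ p.B ≤ 2 ^ p.Lam ∧ p.c ≤ p.B ∧ 10 ^ 6 ≤ p.c ∧
    1 ≤ p.q ∧ 1 ≤ p.C ∧ 1 ≤ p.B := by
  have hc6 : 10 ^ 6 ≤ p.c := by
    have := p.hLog
    have := p.hLam
    nlinarith
  obtain ⟨b, hb⟩ := p.hBp
  have hB1 : 1 ≤ p.B := by rw [hb]; exact Nat.one_le_two_pow
  have hq1 : 1 ≤ p.q := by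
    obtain ⟨h, hh⟩ := p.hsq
    rw [p.hq, hh]
    exact Nat.one_le_pow _ _ (by positivity)
  have hC1 : 1 ≤ p.C := by
    by_contra hC0
    have hC0 : p.C = 0 := by omega
    have := p.hC1
    rw [hC0, zero_mul] at this
    have hd := p.hd
    have : 0 < p.c ^ 3 * p.q * p.d := by positivity
    omega
  have hcB : p.c ≤ p.B := by
    calc p.c ≤ p.c ^ 200 := Nat.le_self_pow (by norm_num) _
      _ ≤ p.B := p.N7
  have hs := p.s1
  have e1 : 4 * p.B * p.q ^ 2 * p.C = p.B * (p.q ^ 2 * (4 * p.C)) := by ring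
  have e2 : 4 * p.B * p.q ^ 2 * p.C = p.q ^ 2 * (4 * (p.B * p.C)) := by ring
  refine ⟨?_, ?_, hcB, hc6, hq1, hC1, hB1⟩
  · refine le_trans ?_ hs
    rw [e2]
    have : 1 ≤ p.B * p.C := Nat.mul_pos hB1 hC1
    nlinarith
  · refine le_trans ?_ hs
    rw [e1]
    apply Nat.le_mul_of_pos_right
    positivity

theorem QM_Z (p : Par) (h k : ℕ) (hk : 1 ≤ k) (hNh : h ≤ p.N)
    (hmain : 18 * p.Lam * p.B * k * p.N ≤ h * (p.q / 2)) :
    (((p.q : ℝ) + 1) ^ (4 * p.B * k) * (((p.N : ℝ) - h) / p.N) ^ (p.q / 2)) *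
      (((p.c ^ 15 * p.B ^ 4 : ℕ) : ℝ)) ^ k * Real.exp 8 * 2 ≤ 1 := by
  obtain ⟨hq2, hB2, hcB, hc6, hq1, hC1, hB1⟩ := QM_sizes p
  have hNpos : (0 : ℝ) < p.N := by exact_mod_cast p.hN
  have e1 : (((p.N : ℝ) - h) / p.N) ^ (p.q / 2) ≤
      Real.exp (-(18 * p.Lam * p.B * k)) := by
    have h0 : 0 ≤ ((p.N : ℝ) - h) / p.N := by
      apply div_nonneg _ hNpos.le
      have : (h : ℝ) ≤ p.N := by exact_mod_cast hNh
      linarith
    have h1 : ((p.N : ℝ) - h) / p.N ≤ Real.exp (-(h / p.N)) := by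
      have := Real.add_one_le_exp (-((h : ℝ) / p.N))
      have e : ((p.N : ℝ) - h) / p.N = -((h : ℝ) / p.N) + 1 := by
        field_simp
        ring
      rw [e]
      exact this
    calc (((p.N : ℝ) - h) / p.N) ^ (p.q / 2) ≤ Real.exp (-(h / p.N)) ^ (p.q / 2) :=
          pow_le_pow_left₀ h0 h1 _
      _ = Real.exp (((p.q / 2 : ℕ) : ℝ) * (-(h / p.N))) := by rw [← Real.exp_nat_mul]
      _ ≤ Real.exp (-(18 * p.Lam * p.B * k)) := by
        apply Real.exp_le_exp.2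
        have hm : (18 * p.Lam * p.B * k * p.N : ℝ) ≤ h * ((p.q / 2 : ℕ) : ℝ) := by
          exact_mod_cast hmain
        have : (18 * p.Lam * p.B * k : ℝ) ≤ h * ((p.q / 2 : ℕ) : ℝ) / p.N := by
          rw [le_div_iff₀ hNpos]
          exact hm
        have e : ((p.q / 2 : ℕ) : ℝ) * (-((h : ℝ) / p.N)) = -(h * ((p.q / 2 : ℕ) : ℝ) / p.N) := by
          ring
        rw [e]
        linarith
  have e2 : ((p.q : ℝ) + 1) ^ (4 * p.B * k) ≤ Real.exp (4 * p.Lam * p.B * k) := by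
    calc ((p.q : ℝ) + 1) ^ (4 * p.B * k) ≤ ((2 : ℝ) ^ p.Lam) ^ (4 * p.B * k) := by
          apply pow_le_pow_left₀ (by positivity)
          exact_mod_cast hq2
      _ = (2 : ℝ) ^ (p.Lam * (4 * p.B * k)) := by rw [← pow_mul]
      _ ≤ Real.exp ((p.Lam * (4 * p.B * k) : ℕ) : ℝ) := QM_two_pow _
      _ = Real.exp (4 * p.Lam * p.B * k) := by
        congr 1
        push_cast
        ring
  have e3 : (((p.c ^ 15 * p.B ^ 4 : ℕ) : ℝ)) ^ k ≤ Real.exp (5 * p.Lam * k) := by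
    have hM : p.c ^ 15 * p.B ^ 4 ≤ 2 ^ (5 * p.Lam) := by
      calc p.c ^ 15 * p.B ^ 4 ≤ p.c ^ 200 * p.B ^ 4 := by
            apply Nat.mul_le_mul_right
            exact Nat.pow_le_pow_right (by omega) (by norm_num)
        _ ≤ p.B * p.B ^ 4 := Nat.mul_le_mul_right _ p.N7
        _ = p.B ^ 5 := by ring
        _ ≤ (2 ^ p.Lam) ^ 5 := Nat.pow_le_pow_left hB2 5
        _ = 2 ^ (5 * p.Lam) := by rw [← pow_mul, mul_comm]
    calc (((p.c ^ 15 * p.B ^ 4 : ℕ) : ℝ)) ^ k ≤ ((2 : ℝ) ^ (5 * p.Lam)) ^ k := by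
          apply pow_le_pow_left₀ (by positivity)
          exact_mod_cast hM
      _ = (2 : ℝ) ^ (5 * p.Lam * k) := by rw [← pow_mul]
      _ ≤ Real.exp ((5 * p.Lam * k : ℕ) : ℝ) := QM_two_pow _
      _ = Real.exp (5 * p.Lam * k) := by push_cast; ring_nf
  have e4 : (2 : ℝ) ≤ Real.exp 1 := by
    have := Real.add_one_le_exp (1 : ℝ)
    linarith
  have hz : 0 ≤ (((p.N : ℝ) - h) / p.N) ^ (p.q / 2) := by
    apply pow_nonneg
    apply div_nonneg _ hNpos.le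
    have : (h : ℝ) ≤ p.N := by exact_mod_cast hNh
    linarith
  calc (((p.q : ℝ) + 1) ^ (4 * p.B * k) * (((p.N : ℝ) - h) / p.N) ^ (p.q / 2)) *
      (((p.c ^ 15 * p.B ^ 4 : ℕ) : ℝ)) ^ k * Real.exp 8 * 2
      ≤ (Real.exp (4 * p.Lam * p.B * k) * Real.exp (-(18 * p.Lam * p.B * k))) *
        Real.exp (5 * p.Lam * k) * Real.exp 8 * Real.exp 1 := by
        apply mul_le_mul _ e4 (by norm_num) (by positivity)
        apply mul_le_mul_of_nonneg_right _ (Real.exp_pos _).le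
        apply mul_le_mul _ e3 (by positivity) (by positivity)
        exact mul_le_mul e2 e1 hz (Real.exp_pos _).le
    _ = Real.exp (4 * p.Lam * p.B * k + (-(18 * p.Lam * p.B * k)) + 5 * p.Lam * k + 8 + 1) := by
        rw [Real.exp_add, Real.exp_add, Real.exp_add, Real.exp_add]
    _ ≤ Real.exp 0 := by
        apply Real.exp_le_exp.2
        have hL : (1 : ℝ) ≤ p.Lam := by exact_mod_cast p.hLam
        have hB : (1 : ℝ) ≤ p.B := by exact_mod_cast hB1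
        have hK : (1 : ℝ) ≤ k := by exact_mod_cast hk
        have hLk : (1 : ℝ) ≤ p.Lam * k := by nlinarith
        have hLBk : (p.Lam : ℝ) * k ≤ p.Lam * p.B * k := by nlinarith
        nlinarith
    _ = 1 := Real.exp_zero

theorem QM (hX : QX_stmt) (hA1 : QA1_stmt) : QM_stmt := by
  intro p P O A V _ _ _ _ _ _ _ _ _ H v T MM v0 hcA hT h3 z i A1 hz hsub hdis hinj hk hc4 hN hkq
  obtain ⟨hq2, hB2, hcB, hc6, hq1, hC1, hB1⟩ := QM_sizes p
  set k := A1.card with hkdef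
  set D := p.c ^ 65 * p.B ^ 16 with hD
  set h := p.N / D with hh
  have hDpos : 0 < D := by rw [hD]; positivity
  have hDN : D ≤ p.N := by
    have h1 := p.N3'
    have hd := p.hd
    calc D = p.c ^ 65 * p.B ^ 16 := hD
      _ ≤ p.c ^ 100 * p.B ^ 100 := Nat.mul_le_mul (Nat.pow_le_pow_right (by omega) (by norm_num))
          (Nat.pow_le_pow_right (by omega) (by norm_num))
      _ = (p.c * p.B) ^ 100 := by rw [mul_pow]
      _ ≤ (p.c * p.B) ^ 100 * p.d := Nat.le_mul_of_pos_right _ (by omega)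
      _ ≤ p.N := h1
  have hhD : h * D ≤ p.N := Nat.div_mul_le_self _ _
  have hh2 : p.N ≤ 2 * D * h := by
    have h1 : p.N < D * (h + 1) := by
      have h2 := Nat.div_add_mod p.N D
      have h3 := Nat.mod_lt p.N hDpos
      rw [← hh] at h2
      nlinarith
    have h2 : 1 ≤ h := (Nat.one_le_div_iff hDpos).2 hDN
    nlinarith
  have hhN : h ≤ p.N := Nat.div_le_self _ _
  -- bound for BadU
  have h8 : 8 * h ≤ k * p.d := by
    have e : p.c ^ 65 * p.B ^ 16 = p.c * (p.c ^ 64 * p.B ^ 16) := by ring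
    have h1 : h * (p.c * (p.c ^ 64 * p.B ^ 16)) < k * p.d * (p.c ^ 64 * p.B ^ 16) := by
      rw [← e, ← hD]
      calc h * D ≤ p.N := hhD
        _ < k * (p.c ^ 64 * p.B ^ 16) * p.d := hN
        _ = k * p.d * (p.c ^ 64 * p.B ^ 16) := by ring
    have h2 : h * p.c < k * p.d := by
      have : 0 < p.c ^ 64 * p.B ^ 16 := by positivity
      apply Nat.lt_of_mul_lt_mul_right (a := p.c ^ 64 * p.B ^ 16)
      calc h * p.c * (p.c ^ 64 * p.B ^ 16) = h * (p.c * (p.c ^ 64 * p.B ^ 16)) := by ring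
        _ < k * p.d * (p.c ^ 64 * p.B ^ 16) := h1
    nlinarith
  have h2h : 2 * h ≤ p.N := by
    have : 2 ≤ D := by
      rw [hD]
      calc 2 ≤ p.c := by omega
        _ ≤ p.c ^ 65 := Nat.le_self_pow (by norm_num) _
        _ ≤ p.c ^ 65 * p.B ^ 16 := Nat.le_mul_of_pos_right _ (by positivity)
    calc 2 * h ≤ D * h := Nat.mul_le_mul_right _ this
      _ = h * D := by ring
      _ ≤ p.N := hhD
  have hU := hA1 p V T MM hT k h h2h h8
  have hU' := QM_U _ p.N k h p.c p.B hk hc6 hU p.hN (by rw [← hD]; exact hhD)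
  -- the second term
  have h16 : 4 * (4 * p.B * k) ≤ p.q := by
    have : 16 * p.B ≤ p.c ^ 66 * p.B ^ 17 := by
      have e : p.c ^ 66 * p.B ^ 17 = (p.c ^ 66 * p.B ^ 16) * p.B := by ring
      rw [e]
      apply Nat.mul_le_mul_right
      calc 16 ≤ p.c := by omega
        _ ≤ p.c ^ 66 := Nat.le_self_pow (by norm_num) _
        _ ≤ p.c ^ 66 * p.B ^ 16 := Nat.le_mul_of_pos_right _ (by positivity)
    calc 4 * (4 * p.B * k) = k * (16 * p.B) := by ring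
      _ ≤ k * (p.c ^ 66 * p.B ^ 17) := Nat.mul_le_mul_left _ this
      _ ≤ p.q := hkq
  have hX1 := hX p P O A V H v T v0 hcA hT.card_V h3 z i A1 h (4 * p.B * k) hz hsub hdis hinj hc4
    hhN h16
  have hmain : 18 * p.Lam * p.B * k * p.N ≤ h * (p.q / 2) := by
    have hq16 : 2 ≤ p.q := by
      have : 1 ≤ p.B * k := Nat.mul_pos hB1 hk
      nlinarith
    have h3q : p.q ≤ 3 * (p.q / 2) := by omega
    have e1 : p.N * p.q ≤ 6 * D * (h * (p.q / 2)) := by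
      calc p.N * p.q ≤ (2 * D * h) * (3 * (p.q / 2)) := Nat.mul_le_mul hh2 h3q
        _ = 6 * D * (h * (p.q / 2)) := by ring
    have e2 : D * (p.N * k * p.c * p.B) ≤ p.N * p.q := by
      calc D * (p.N * k * p.c * p.B) = p.N * (k * (p.c ^ 66 * p.B ^ 17)) := by rw [hD]; ring
        _ ≤ p.N * p.q := Nat.mul_le_mul_left _ hkq
    have e3 : D * (p.N * k * p.c * p.B) ≤ D * (6 * (h * (p.q / 2))) := by
      calc D * (p.N * k * p.c * p.B) ≤ p.N * p.q := e2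
        _ ≤ 6 * D * (h * (p.q / 2)) := e1
        _ = D * (6 * (h * (p.q / 2))) := by ring
    have e4 : p.N * k * p.c * p.B ≤ 6 * (h * (p.q / 2)) := Nat.le_of_mul_le_mul_left e3 hDpos
    have e5 : 10 ^ 6 * (p.Lam * p.B * k * p.N) ≤ p.N * k * p.c * p.B := by
      calc 10 ^ 6 * (p.Lam * p.B * k * p.N) = (10 ^ 6 * p.Lam) * (p.B * k * p.N) := by ring
        _ ≤ p.c * (p.B * k * p.N) := Nat.mul_le_mul_right _ p.hLog
        _ = p.N * k * p.c * p.B := by ring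
    have e6 : 18 * p.Lam * p.B * k * p.N = 18 * (p.Lam * p.B * k * p.N) := by ring
    rw [e6]
    omega
  have hZ := QM_Z p h k hk hhN hmain
  refine QM_end _ _ (BadU T k h).card p.N k (p.c ^ 15 * p.B ^ 4) _ p.hN ?_ ?_ hZ
  · refine hX1.trans (le_of_eq ?_)
    rw [← hkdef]
    ring
  · exact_mod_cast hU'

end Pool.Agent.helper24.TG
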