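import Pool.Agent.helper92.TG.QM

set_option linter.all false
set_option autoImplicit false

/-!
# Module QB4 (MP_ce98d8_co): probability of a bad copy for the conflict property
-/

namespace Pool.Agent.helper24.TG

open Finset Classical
open Pool.Agent.helper11.Tight (nb eo mem_nb)

/-- one point of every type -/
theorem QB4_sel {P A : Type} [Fintype P] [DecidableEq P] [Fintype A] [DecidableEq A]
    (S : Finset (P × A)) : ∃ A1 ⊆ S, (∀ x ∈ A1, ∀ y ∈ A1, x.1 = y.1 → x = y) ∧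
      S.card ≤ A1.card * Fintype.card A := by
  rcases S.eq_empty_or_nonempty with rfl | ⟨x0, hx0⟩
  · exact ⟨∅, Finset.Subset.refl _, by simp, by simp⟩
  haveI : Nonempty (P × A) := ⟨x0⟩
  have hg : ∀ t ∈ S.image Prod.fst, ∃ x : P × A, x ∈ S ∧ x.1 = t := by
    intro t ht
    obtain ⟨x, hx, rfl⟩ := Finset.mem_image.1 ht
    exact ⟨x, hx, rfl⟩
  choose! g hg1 hg2 using hg
  refine ⟨(S.image Prod.fst).image g, ?_, ?_, ?_⟩
  · intro x hx
    obtain ⟨t, ht, rfl⟩ := Finset.mem_image.1 hx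
    exact hg1 t ht
  · intro x hx y hy h
    obtain ⟨t, ht, rfl⟩ := Finset.mem_image.1 hx
    obtain ⟨t', ht', rfl⟩ := Finset.mem_image.1 hy
    rw [hg2 t ht, hg2 t' ht'] at h
    rw [h]
  · have h1 : ((S.image Prod.fst).image g).card = (S.image Prod.fst).card := by
      apply Finset.card_image_of_injOn
      intro t ht t' ht' h
      have h2 : (g t).1 = (g t').1 := by rw [h]
      rwa [hg2 t ht, hg2 t' ht'] at h2
    rw [h1]
    have h2 : S ⊆ (S.image Prod.fst) ×ˢ (Finset.univ : Finset A) := by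
      intro x hx
      exact Finset.mem_product.2 ⟨Finset.mem_image_of_mem _ hx, Finset.mem_univ _⟩
    calc S.card ≤ ((S.image Prod.fst) ×ˢ (Finset.univ : Finset A)).card := Finset.card_le_card h2
      _ = (S.image Prod.fst).card * Fintype.card A := by
        rw [Finset.card_product, Finset.card_univ]

theorem QB4_conf_mono {P O A V : Type} [Fintype P] [DecidableEq P] [Fintype O] [DecidableEq O]
    [Fintype A] [DecidableEq A] [AddCommGroup A] [Fintype V] [DecidableEq V] (p : Par)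
    (H : Host P O p.q) (v : O → A) (T : SimpleGraph V) (φ : P → V) (i : Bool) (z : P × A)
    {S S' : Finset (P × A)} (h : S ⊆ S') : conf p H v T φ i z S ⊆ conf p H v T φ i z S' := by
  intro x hx
  unfold conf at hx ⊢
  rw [Finset.mem_filter] at hx ⊢
  obtain ⟨h1, y, hy, h2⟩ := hx
  exact ⟨h1, y, h hy, h2⟩

/-- one size `k`: numerics -/
theorem QB4_num (Y Ps n k c B : ℕ) (hk : 1 ≤ k) (hc : 10 ^ 6 ≤ c) (hB : 1 ≤ B)
    (hn : n ≤ 64 * c ^ 3 * B * k)
    (hY : Y * (c ^ 15 * B ^ 4) ^ k ≤ n.choose k * Ps) :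
    Y * (c ^ 8 * B ^ 2) ^ k * 2 ^ k ≤ Ps := by
  have h1 : n.choose k ≤ (192 * c ^ 3 * B) ^ k := by
    have h := choose_mul_pow_le n k
    have h2 : (3 * n) ^ k ≤ (192 * c ^ 3 * B) ^ k * k ^ k := by
      rw [← mul_pow]
      apply Nat.pow_le_pow_left
      calc 3 * n ≤ 3 * (64 * c ^ 3 * B * k) := Nat.mul_le_mul_left _ hn
        _ = 192 * c ^ 3 * B * k := by ring
    have h3 : n.choose k * k ^ k ≤ (192 * c ^ 3 * B) ^ k * k ^ k := h.trans h2
    exact Nat.le_of_mul_le_mul_right h3 (by positivity)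
  have h4 : (192 * c ^ 3 * B) ^ k * ((c ^ 8 * B ^ 2) ^ k * 2 ^ k) ≤ (c ^ 15 * B ^ 4) ^ k := by
    rw [← mul_pow, ← mul_pow]
    apply Nat.pow_le_pow_left
    have e : c ^ 15 * B ^ 4 = (c ^ 11 * B ^ 3) * (c ^ 4 * B) := by ring
    rw [e]
    calc 192 * c ^ 3 * B * (c ^ 8 * B ^ 2 * 2) = (c ^ 11 * B ^ 3) * 384 := by ring
      _ ≤ (c ^ 11 * B ^ 3) * (c ^ 4 * B) := by
        apply Nat.mul_le_mul_left
        calc 384 ≤ c := by omega
          _ ≤ c ^ 4 := Nat.le_self_pow (by norm_num) _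
          _ ≤ c ^ 4 * B := Nat.le_mul_of_pos_right _ hB
  have hpos : 0 < (192 * c ^ 3 * B) ^ k := by positivity
  have h5 : (192 * c ^ 3 * B) ^ k * (Y * (c ^ 8 * B ^ 2) ^ k * 2 ^ k) ≤
      (192 * c ^ 3 * B) ^ k * Ps := by
    calc (192 * c ^ 3 * B) ^ k * (Y * (c ^ 8 * B ^ 2) ^ k * 2 ^ k)
        = Y * ((192 * c ^ 3 * B) ^ k * ((c ^ 8 * B ^ 2) ^ k * 2 ^ k)) := by ring
      _ ≤ Y * (c ^ 15 * B ^ 4) ^ k := Nat.mul_le_mul_left _ h4
      _ ≤ n.choose k * Ps := hY
      _ ≤ (192 * c ^ 3 * B) ^ k * Ps := Nat.mul_le_mul_right _ h1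
  exact Nat.le_of_mul_le_mul_left h5 hpos

theorem QB4_geom (K : Finset ℕ) (hK : ∀ k ∈ K, 1 ≤ k) : ∑ k ∈ K, (1 / 2 : ℝ) ^ k ≤ 1 := by
  have h1 : K ⊆ (Finset.range (K.sup id + 1)).erase 0 := by
    intro k hk
    rw [Finset.mem_erase, Finset.mem_range]
    have := hK k hk
    have h2 : k ≤ K.sup id := Finset.le_sup (f := id) hk
    exact ⟨by omega, by omega⟩
  have h2 : ∀ n : ℕ, ∑ k ∈ (Finset.range (n + 1)).erase 0, (1 / 2 : ℝ) ^ k ≤ 1 - (1 / 2) ^ n := by
    intro n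
    induction n with
    | zero => simp
    | succ n ih =>
      rw [Finset.range_add_one, Finset.erase_insert_of_ne (by omega), Finset.sum_insert (by simp)]
      have : (1 / 2 : ℝ) ^ (n + 1) = (1 / 2) ^ n / 2 := by rw [pow_succ]; ring
      linarith
  calc ∑ k ∈ K, (1 / 2 : ℝ) ^ k ≤ ∑ k ∈ (Finset.range (K.sup id + 1)).erase 0, (1 / 2 : ℝ) ^ k :=
        Finset.sum_le_sum_of_subset_of_nonneg h1 (fun _ _ _ => by positivity)
    _ ≤ 1 - (1 / 2) ^ (K.sup id) := h2 _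
    _ ≤ 1 := by
      have : (0 : ℝ) ≤ (1 / 2) ^ (K.sup id) := by positivity
      linarith

theorem QB4 (hS : QS_stmt) (hM : QM_stmt) (hL : QL_stmt) : QB4_stmt := by
  intro p P O A V _ _ _ _ _ _ _ _ _ H v T MM v0 hcA hT h3 z i E' hz hsub hdis k0 hk0 hk0'
  obtain ⟨hq2, hB2, hcB, hc6, hq1, hC1, hB1⟩ := QM_sizes p
  set Ps := (Psi p H v0).card with hPs
  -- the events
  let Ev : Finset (P × A) → (P → V) → Prop := fun A1 φ =>
    (conf p H v T φ i z A1).card < 4 * p.B * A1.card ∧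
      p.c ^ 4 * (conf p H v T φ i z A1).card < 4 * p.q
  let Val : Finset (P × A) → Prop := fun A1 =>
    (∀ x ∈ A1, ∀ y ∈ A1, x.1 = y.1 → x = y) ∧ p.c ^ 4 * A1.card ≤ p.q
  have hEv : ∀ A1 ⊆ E', 1 ≤ A1.card → Val A1 →
      ((Psi p H v0).filter (Ev A1)).card * (p.c ^ 15 * p.B ^ 4) ^ A1.card ≤ Ps := by
    intro A1 hA1 hk hval
    have hsub1 : A1 ⊆ XA A H := hA1.trans hsub
    have hdis1 : Disjoint A1 (Nb H v i z) := Finset.disjoint_of_subset_left hA1 hdis
    by_cases c1 : A1.card * (p.c ^ 64 * p.B ^ 16) * p.d ≤ p.N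
    · have := hS p P O A V H v T MM v0 hcA hT h3 z i A1 hz hsub1 hdis1 hval.1 hk hval.2 c1
      refine le_trans (Nat.mul_le_mul_right _ (Finset.card_le_card ?_)) this
      intro φ hφ
      rw [Finset.mem_filter] at hφ ⊢
      exact ⟨hφ.1, hφ.2.1⟩
    · by_cases c2 : A1.card * (p.c ^ 66 * p.B ^ 17) ≤ p.q
      · have := hM p P O A V H v T MM v0 hcA hT h3 z i A1 hz hsub1 hdis1 hval.1 hk hval.2
          (not_le.1 c1) c2
        refine le_trans (Nat.mul_le_mul_right _ (Finset.card_le_card ?_)) this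
        intro φ hφ
        rw [Finset.mem_filter] at hφ ⊢
        exact ⟨hφ.1, hφ.2.1⟩
      · have := hL p P O A V H v T MM v0 hcA hT h3 z i A1 hz hsub1 hdis1 hval.1 hk hval.2
          (not_le.1 c2)
        refine le_trans (Nat.mul_le_mul_right _ (Finset.card_le_card ?_)) this
        intro φ hφ
        rw [Finset.mem_filter] at hφ ⊢
        exact ⟨hφ.1, hφ.2.2⟩
  -- the sizes
  let K : Finset ℕ := (Finset.range (E'.card + 1)).filter
    (fun k => k0 ≤ k ∧ E'.card ≤ 64 * p.c ^ 3 * p.B * k)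
  let Y : ℕ → ℕ := fun k => ∑ A1 ∈ (E'.powersetCard k).filter Val,
    ((Psi p H v0).filter (Ev A1)).card
  have hcover : ((Psi p H v0).filter (fun φ => BadC p H v T φ i z E')).card ≤ ∑ k ∈ K, Y k := by
    have h1 : (Psi p H v0).filter (fun φ => BadC p H v T φ i z E') ⊆
        K.biUnion (fun k => ((E'.powersetCard k).filter Val).biUnion
          (fun A1 => (Psi p H v0).filter (Ev A1))) := by
      intro φ hφ
      rw [Finset.mem_filter] at hφ
      obtain ⟨hφ0, S, hSE, hSn, hS1, hS2, hS3⟩ := hφ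
      obtain ⟨A1, hA1S, hinj, hSA⟩ := QB4_sel S
      rw [hcA] at hSA
      have hA1E : A1 ⊆ E' := hA1S.trans hSE
      have hA1le : A1.card ≤ S.card := Finset.card_le_card hA1S
      have hSpos : 0 < S.card := Finset.card_pos.2 hSn
      have hA1pos : 1 ≤ A1.card := by
        by_contra h
        have : A1.card = 0 := by omega
        rw [this] at hSA
        omega
      have hconf : (conf p H v T φ i z A1).card ≤ (conf p H v T φ i z S).card :=
        Finset.card_le_card (QB4_conf_mono p H v T φ i z hA1S)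
      have hE64 : E'.card ≤ 64 * p.c ^ 3 * p.B * A1.card := by
        calc E'.card ≤ 64 * p.c ^ 3 * S.card := hS1
          _ ≤ 64 * p.c ^ 3 * (A1.card * p.B) := Nat.mul_le_mul_left _ hSA
          _ = 64 * p.c ^ 3 * p.B * A1.card := by ring
      have hk0A : k0 ≤ A1.card := by
        rcases hk0' with h | h
        · omega
        · have h2 := lt_of_lt_of_le h hE64
          have h3 : k0 - 1 < A1.card := Nat.lt_of_mul_lt_mul_left h2
          omega
      rw [Finset.mem_biUnion]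
      refine ⟨A1.card, ?_, ?_⟩
      · rw [Finset.mem_filter, Finset.mem_range]
        exact ⟨Nat.lt_succ_of_le (Finset.card_le_card hA1E), hk0A, hE64⟩
      · rw [Finset.mem_biUnion]
        refine ⟨A1, ?_, ?_⟩
        · rw [Finset.mem_filter, Finset.mem_powersetCard]
          refine ⟨⟨hA1E, rfl⟩, hinj, ?_⟩
          exact (Nat.mul_le_mul_left _ hA1le).trans hS2
        · rw [Finset.mem_filter]
          refine ⟨hφ0, ?_, ?_⟩
          · calc (conf p H v T φ i z A1).card ≤ (conf p H v T φ i z S).card := hconf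
              _ < 4 * S.card := hS3
              _ ≤ 4 * (A1.card * p.B) := Nat.mul_le_mul_left _ hSA
              _ = 4 * p.B * A1.card := by ring
          · calc p.c ^ 4 * (conf p H v T φ i z A1).card
                ≤ p.c ^ 4 * (conf p H v T φ i z S).card := Nat.mul_le_mul_left _ hconf
              _ < p.c ^ 4 * (4 * S.card) := by
                apply Nat.mul_lt_mul_of_pos_left hS3
                positivity
              _ = 4 * (p.c ^ 4 * S.card) := by ring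
              _ ≤ 4 * p.q := Nat.mul_le_mul_left _ hS2
    refine (Finset.card_le_card h1).trans (Finset.card_biUnion_le.trans ?_)
    exact Finset.sum_le_sum fun k _ => Finset.card_biUnion_le
  have hY : ∀ k ∈ K, Y k * (p.c ^ 8 * p.B ^ 2) ^ k * 2 ^ k ≤ Ps := by
    intro k hk
    rw [Finset.mem_filter, Finset.mem_range] at hk
    have hk1 : 1 ≤ k := hk0.trans hk.2.1
    refine QB4_num (Y k) Ps E'.card k p.c p.B hk1 hc6 hB1 hk.2.2 ?_
    calc Y k * (p.c ^ 15 * p.B ^ 4) ^ k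
        = ∑ A1 ∈ (E'.powersetCard k).filter Val,
          ((Psi p H v0).filter (Ev A1)).card * (p.c ^ 15 * p.B ^ 4) ^ k := by
          rw [Finset.sum_mul]
      _ ≤ ∑ A1 ∈ (E'.powersetCard k).filter Val, Ps := by
          refine Finset.sum_le_sum fun A1 hA1 => ?_
          rw [Finset.mem_filter, Finset.mem_powersetCard] at hA1
          obtain ⟨⟨h1, h2⟩, h4⟩ := hA1
          have := hEv A1 h1 (by omega) h4
          rw [← h2]
          exact this
      _ = ((E'.powersetCard k).filter Val).card * Ps := by rw [Finset.sum_const, smul_eq_mul]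
      _ ≤ E'.card.choose k * Ps := by
          apply Nat.mul_le_mul_right
          rw [← Finset.card_powersetCard]
          exact Finset.card_le_card (Finset.filter_subset _ _)
  have hYR : ∀ k ∈ K, (Y k : ℝ) * ((p.c : ℝ) ^ 8 * (p.B : ℝ) ^ 2) ^ k0 ≤ Ps * (1 / 2 : ℝ) ^ k := by
    intro k hk
    have h1 := hY k hk
    rw [Finset.mem_filter, Finset.mem_range] at hk
    have h2 : (Y k : ℝ) * ((p.c : ℝ) ^ 8 * (p.B : ℝ) ^ 2) ^ k * 2 ^ k ≤ Ps := by exact_mod_cast h1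
    have hc1 : (1 : ℝ) ≤ p.c := by
      have : 1 ≤ p.c := by omega
      exact_mod_cast this
    have hb1 : (1 : ℝ) ≤ p.B := by exact_mod_cast hB1
    have hM1 : (1 : ℝ) ≤ (p.c : ℝ) ^ 8 * (p.B : ℝ) ^ 2 := by
      have := one_le_pow₀ hc1 (n := 8)
      have := one_le_pow₀ hb1 (n := 2)
      nlinarith
    have h3 : ((p.c : ℝ) ^ 8 * (p.B : ℝ) ^ 2) ^ k0 ≤ ((p.c : ℝ) ^ 8 * (p.B : ℝ) ^ 2) ^ k :=
      pow_le_pow_right₀ hM1 hk.2.1
    have h4 : (Y k : ℝ) * ((p.c : ℝ) ^ 8 * (p.B : ℝ) ^ 2) ^ k0 ≤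
        (Y k : ℝ) * ((p.c : ℝ) ^ 8 * (p.B : ℝ) ^ 2) ^ k :=
      mul_le_mul_of_nonneg_left h3 (Nat.cast_nonneg _)
    have h5 : (0 : ℝ) < 2 ^ k := by positivity
    have h6 : (1 / 2 : ℝ) ^ k = 1 / 2 ^ k := by rw [div_pow, one_pow]
    rw [h6, mul_one_div, le_div_iff₀ h5]
    calc (Y k : ℝ) * ((p.c : ℝ) ^ 8 * (p.B : ℝ) ^ 2) ^ k0 * 2 ^ k
        ≤ (Y k : ℝ) * ((p.c : ℝ) ^ 8 * (p.B : ℝ) ^ 2) ^ k * 2 ^ k :=
          mul_le_mul_of_nonneg_right h4 h5.le
      _ ≤ Ps := h2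
  have hfin : (((Psi p H v0).filter (fun φ => BadC p H v T φ i z E')).card : ℝ) *
      ((p.c : ℝ) ^ 8 * (p.B : ℝ) ^ 2) ^ k0 ≤ Ps := by
    have h1 : (((Psi p H v0).filter (fun φ => BadC p H v T φ i z E')).card : ℝ) ≤
        ∑ k ∈ K, (Y k : ℝ) := by exact_mod_cast hcover
    calc (((Psi p H v0).filter (fun φ => BadC p H v T φ i z E')).card : ℝ) *
        ((p.c : ℝ) ^ 8 * (p.B : ℝ) ^ 2) ^ k0
        ≤ (∑ k ∈ K, (Y k : ℝ)) * ((p.c : ℝ) ^ 8 * (p.B : ℝ) ^ 2) ^ k0 :=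
          mul_le_mul_of_nonneg_right h1 (by positivity)
      _ = ∑ k ∈ K, (Y k : ℝ) * ((p.c : ℝ) ^ 8 * (p.B : ℝ) ^ 2) ^ k0 := by rw [Finset.sum_mul]
      _ ≤ ∑ k ∈ K, Ps * (1 / 2 : ℝ) ^ k := Finset.sum_le_sum hYR
      _ = Ps * ∑ k ∈ K, (1 / 2 : ℝ) ^ k := by rw [Finset.mul_sum]
      _ ≤ Ps * 1 := by
        apply mul_le_mul_of_nonneg_left _ (Nat.cast_nonneg _)
        apply QB4_geom
        intro k hk
        rw [Finset.mem_filter] at hk
        exact hk0.trans hk.2.1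
      _ = Ps := mul_one _
  exact_mod_cast hfin

end Pool.Agent.helper24.TG
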